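import Pool.Agent.Run7.h506.TA.Stm
import Pool.Agent.TH217.TL.Leg

/-! Project TA (helper506), part LEG: smooth Legendre duality in several variables.  Uses the
`C^2` theory of `Pool/Agent/TH217/TL/Leg.lean`. -/

set_option autoImplicit false

namespace Pool.Agent.Run7.h88.TA

open Set Filter Topology Pool.Agent.W774.TL Pool.Agent.Run7.h506.TA
open scoped ContDiff

open Pool.Agent.TH217.TL (UU Sm Pos hess Psi PsiE PsiE_coe PsiD PsiH Psi_hfd Psi_inj Psi_cd
  fibre_sum Lv_eq Lx_eq fd_apply pos_iff)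

section

variable {m : ℕ} {H : X m → X m → ℝ → ℝ}

lemma sm_of (h : ContDiff ℝ ∞ (U H)) : Sm H :=
  ContDiff.of_le (m := 2) (n := ∞) h
    (WithTop.coe_le_coe.2 le_top : ((2 : ℕ∞) : WithTop ℕ∞) ≤ ((⊤ : ℕ∞) : WithTop ℕ∞))

lemma fd_inf (h : ContDiff ℝ ∞ (U H)) : ContDiff ℝ ∞ (fderiv ℝ (UU H)) :=
  ContDiff.fderiv_right (m := ∞) (n := ∞) h (by simp)

lemma pos_of (h : ContDiff ℝ ∞ (U H))
    (hp : ∀ (q : X m × X m × ℝ) (w : X m), w ≠ 0 → 0 < HS (U H) q w) : Pos H :=
  (pos_iff (sm_of h)).2 hp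

lemma Psi_inf (h : ContDiff ℝ ∞ (U H)) : ContDiff ℝ ∞ (Psi H) := by
  refine contDiff_fst.prodMk (ContDiff.prodMk ?_ (contDiff_snd.comp contDiff_snd))
  rw [contDiff_pi]
  intro i
  have he : (fun q : X m × X m × ℝ => Lv H i q.1 q.2.1 q.2.2)
      = fun q => fderiv ℝ (UU H) q (0, Pi.single i 1, 0) :=
    funext fun q => Lv_eq (sm_of h) i _ _ _
  rw [he]
  exact (fd_inf h).clm_apply contDiff_const

lemma symm_inf (h : ContDiff ℝ ∞ (U H)) (hp : Pos H)
    (hs : Pool.Agent.TH217.TL.Sup H) :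
    ContDiff ℝ ∞ ((PsiH (sm_of h) hp hs).symm : _ → X m × X m × ℝ) := by
  refine (PsiH (sm_of h) hp hs).contDiff_symm (f₀' := PsiE (sm_of h) hp) ?_ ?_
  · intro q
    have h1 : HasFDerivAt (Psi H) ((PsiE (sm_of h) hp q : _ ≃L[ℝ] _) : _ →L[ℝ] _) q := by
      rw [PsiE_coe]; exact Psi_hfd (sm_of h) q
    exact h1
  · exact Psi_inf h

/-- Legendre duality, smooth. -/
theorem leg_inf (h : ContDiff ℝ ∞ (U H)) (hp : Pos H) (hs : Pool.Agent.TH217.TL.Sup H) :
    ∃ W : X m × X m × ℝ → X m, ContDiff ℝ ∞ W ∧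
      (∀ x v t, W (x, fun i => Lv H i x v t, t) = v) ∧
      (∀ x p t i, Lv H i x (W (x, p, t)) t = p i) := by
  have hfst : ∀ z, ((PsiH (sm_of h) hp hs).symm z).1 = z.1 := by
    intro z
    have h1 : Psi H ((PsiH (sm_of h) hp hs).symm z) = z :=
      (PsiH (sm_of h) hp hs).apply_symm_apply z
    have h2 : (Psi H ((PsiH (sm_of h) hp hs).symm z)).1 = z.1 := by rw [h1]
    exact h2
  have hsnd : ∀ z, ((PsiH (sm_of h) hp hs).symm z).2.2 = z.2.2 := by
    intro z
    have h1 : Psi H ((PsiH (sm_of h) hp hs).symm z) = z :=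
      (PsiH (sm_of h) hp hs).apply_symm_apply z
    have h2 : (Psi H ((PsiH (sm_of h) hp hs).symm z)).2.2 = z.2.2 := by rw [h1]
    exact h2
  refine ⟨fun z => ((PsiH (sm_of h) hp hs).symm z).2.1, ?_, ?_, ?_⟩
  · exact contDiff_fst.comp (contDiff_snd.comp (symm_inf h hp hs))
  · intro x v t
    have h1 : (PsiH (sm_of h) hp hs).symm (Psi H (x, v, t)) = (x, v, t) :=
      (PsiH (sm_of h) hp hs).symm_apply_apply (x, v, t)
    exact congrArg (fun z => z.2.1) h1
  · intro x p t i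
    have h1 : Psi H ((PsiH (sm_of h) hp hs).symm (x, p, t)) = (x, p, t) :=
      (PsiH (sm_of h) hp hs).apply_symm_apply (x, p, t)
    have h2 := congrArg (fun z => z.2.1) h1
    simp only [Psi] at h2
    rw [hfst, hsnd] at h2
    exact congrFun h2 i

/-- the momentum minimises `H - ⟨v, ·⟩`. -/
lemma exists_min (h : Sm H) (hs : Pool.Agent.TH217.TL.Sup H) (x v : X m) (t : ℝ) :
    ∃ p : X m, (∀ p' : X m, H x p t - ∑ i, v i * p i ≤ H x p' t - ∑ i, v i * p' i) ∧
      ∀ i, Lv H i x p t = v i := by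
  obtain ⟨B, hB⟩ := hs ((∑ i, |v i|) + 1)
  have hcL : Continuous (fun p : X m => H x p t) := by
    have h1 : Continuous (fun p : X m => ((x, p, t) : X m × X m × ℝ)) := by
      fun_prop
    exact h.diff.continuous.comp h1
  have hcJ : Continuous (fun p : X m => H x p t - ∑ i, v i * p i) := by
    refine hcL.sub ?_
    fun_prop
  have hlim : Tendsto (fun p : X m => H x p t - ∑ i, v i * p i) (cocompact _) atTop := by
    have h1 : Tendsto (fun p : X m => ‖p‖ - B) (cocompact _) atTop :=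
      tendsto_atTop_add_const_right _ _ (tendsto_norm_cocompact_atTop)
    refine tendsto_atTop_mono (fun p => ?_) h1
    have h2 := hB x p t
    have h3 : ∑ i, v i * p i ≤ (∑ i, |v i|) * ‖p‖ := by
      rw [Finset.sum_mul]
      refine Finset.sum_le_sum fun i _ => ?_
      calc v i * p i ≤ |v i * p i| := le_abs_self _
        _ = |v i| * |p i| := abs_mul _ _
        _ ≤ |v i| * ‖p‖ := mul_le_mul_of_nonneg_left (norm_le_pi_norm p i) (abs_nonneg _)
    nlinarith
  obtain ⟨p, hv⟩ := hcJ.exists_forall_le hlim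
  refine ⟨p, hv, fun i => ?_⟩
  have h4 : HasDerivAt (fun s => H x (Function.update p i s) t
      - ∑ j, v j * Function.update p i s j) (Lv H i x p t - v i) (p i) := by
    refine HasDerivAt.fun_sub (by rw [Lv_eq h]; exact Pool.Agent.TH217.TL.Lv_hd h i x p t) ?_
    have h5 : HasDerivAt (fun s => ∑ j, v j * Function.update p i s j)
        (∑ j, v j * (Pi.single i (1 : ℝ) : X m) j) (p i) := by
      apply HasDerivAt.fun_sum
      intro j _
      exact ((hasDerivAt_pi.1 (hasDerivAt_update p i (p i))) j).const_mul (v j)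
    have h6 : (∑ j, v j * (Pi.single i (1 : ℝ) : X m) j) = v i := by
      simp [Pi.single_apply]
    rwa [h6] at h5
  have h7 : IsLocalMin (fun s => H x (Function.update p i s) t
      - ∑ j, v j * Function.update p i s j) (p i) := by
    refine Filter.Eventually.of_forall fun s => ?_
    have := hv (Function.update p i s)
    simpa only [Function.update_eq_self] using this
  have := h7.hasDerivAt_eq_zero h4
  linarith

/-- the dual function. -/
noncomputable def LL (H : X m → X m → ℝ → ℝ) (W : X m × X m × ℝ → X m) (x v : X m) (t : ℝ) : ℝ :=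
  ∑ i, v i * W (x, v, t) i - H x (W (x, v, t)) t

lemma LL_cd (h : ContDiff ℝ ∞ (U H)) {W : X m × X m × ℝ → X m} (hW : ContDiff ℝ ∞ W) :
    ContDiff ℝ ∞ (U (LL H W)) := by
  have hWi : ∀ i, ContDiff ℝ ∞ (fun q : X m × X m × ℝ => W q i) := fun i => by
    have := contDiff_pi.1 hW i
    exact this
  have h1 : ContDiff ℝ ∞ (fun q : X m × X m × ℝ => ∑ i, q.2.1 i * W q i) := by
    apply ContDiff.sum
    intro i _
    refine ContDiff.mul ?_ (hWi i)
    fun_prop
  have h2 : ContDiff ℝ ∞ (fun q : X m × X m × ℝ => (q.1, W q, q.2.2)) :=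
    contDiff_fst.prodMk (hW.prodMk (contDiff_snd.comp contDiff_snd))
  have h3 : ContDiff ℝ ∞ (fun q : X m × X m × ℝ => U H (q.1, W q, q.2.2)) := h.comp h2
  exact h1.sub h3

lemma split (φ : (X m × X m × ℝ) →L[ℝ] ℝ) (a b : X m) (c : ℝ) :
    φ (a, b, c) = φ (a, 0, c) + φ (0, b, 0) := by
  rw [← map_add]
  simp

/-- the derivative of the dual function. -/
lemma LL_fd (h : ContDiff ℝ ∞ (U H)) {W : X m × X m × ℝ → X m} (hW : ContDiff ℝ ∞ W)
    (hv : ∀ x v t i, Lv H i x (W (x, v, t)) t = v i) (q e : X m × X m × ℝ) :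
    fderiv ℝ (UU (LL H W)) q e =
      ∑ i, e.2.1 i * W q i - fderiv ℝ (UU H) (q.1, W q, q.2.2) (e.1, 0, e.2.2) := by
  have hWd : HasFDerivAt W (fderiv ℝ W q) q :=
    (hW.differentiable (by simp) q).hasFDerivAt
  have hWi : ∀ i, HasFDerivAt (fun q : X m × X m × ℝ => W q i)
      ((ContinuousLinearMap.proj i).comp (fderiv ℝ W q)) q := fun i =>
    (ContinuousLinearMap.proj (R := ℝ) (φ := fun _ : Fin (m + 1) => ℝ) i).hasFDerivAt.comp q hWd
  have hvi : ∀ i, HasFDerivAt (fun q : X m × X m × ℝ => q.2.1 i)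
      (((ContinuousLinearMap.proj (R := ℝ) (φ := fun _ : Fin (m + 1) => ℝ) i).comp
        (ContinuousLinearMap.fst ℝ (X m) ℝ)).comp
        (ContinuousLinearMap.snd ℝ (X m) (X m × ℝ))) q := fun i =>
    (((ContinuousLinearMap.proj (R := ℝ) (φ := fun _ : Fin (m + 1) => ℝ) i).comp
        (ContinuousLinearMap.fst ℝ (X m) ℝ)).comp
        (ContinuousLinearMap.snd ℝ (X m) (X m × ℝ))).hasFDerivAt
  have h1 := HasFDerivAt.fun_sum (u := Finset.univ) fun i _ => (hvi i).fun_mul (hWi i)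
  have h2 : HasFDerivAt (fun q : X m × X m × ℝ => (q.1, W q, q.2.2))
      ((ContinuousLinearMap.fst ℝ (X m) (X m × ℝ)).prod ((fderiv ℝ W q).prod
        ((ContinuousLinearMap.snd ℝ (X m) ℝ).comp
          (ContinuousLinearMap.snd ℝ (X m) (X m × ℝ))))) q :=
    hasFDerivAt_fst.prodMk (hWd.prodMk (hasFDerivAt_snd.comp q hasFDerivAt_snd))
  have h3 : HasFDerivAt (UU H) (fderiv ℝ (UU H) (q.1, W q, q.2.2)) (q.1, W q, q.2.2) :=
    ((sm_of h).diff _).hasFDerivAt
  have h4 := h3.comp q h2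
  have h5 := h1.fun_sub h4
  have h6 : fderiv ℝ (UU (LL H W)) q = _ := h5.fderiv
  rw [h6]
  have h7 : fderiv ℝ (UU H) (q.1, W q, q.2.2) (e.1, fderiv ℝ W q e, e.2.2)
      = fderiv ℝ (UU H) (q.1, W q, q.2.2) (e.1, 0, e.2.2)
        + ∑ i, fderiv ℝ W q e i * q.2.1 i := by
    rw [split, fibre_sum]
    congr 1
    refine Finset.sum_congr rfl fun i _ => ?_
    rw [← Lv_eq (sm_of h) i, hv q.1 q.2.1 q.2.2 i]
  have h8 : ∀ a b c : ℝ, a = b + c → a - c = b := fun a b c h => by linarith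
  simp only [sub_apply, sum_apply,
    add_apply, smul_apply, ContinuousLinearMap.comp_apply,
    ContinuousLinearMap.prod_apply, ContinuousLinearMap.coe_fst', ContinuousLinearMap.coe_snd',
    ContinuousLinearMap.proj_apply, smul_eq_mul, h7]
  rw [Finset.sum_add_distrib]
  have h9 : (∑ i, q.2.1 i * (fderiv ℝ W q e) i) = ∑ i, (fderiv ℝ W q e) i * q.2.1 i :=
    Finset.sum_congr rfl fun i _ => mul_comm _ _
  have h10 : (∑ i, W q i * e.2.1 i) = ∑ i, e.2.1 i * W q i :=
    Finset.sum_congr rfl fun i _ => mul_comm _ _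
  rw [h9, h10]
  ring

/-- the second derivative of the dual function along the fibre. -/
lemma LL_hess (h : ContDiff ℝ ∞ (U H)) {W : X m × X m × ℝ → X m} (hW : ContDiff ℝ ∞ W)
    (hv : ∀ x v t i, Lv H i x (W (x, v, t)) t = v i) (q : X m × X m × ℝ) (w : X m) :
    HS (U (LL H W)) q w = HS (U H) (q.1, W q, q.2.2) (fderiv ℝ W q (0, w, 0)) ∧
      ∀ i, fderiv ℝ (fderiv ℝ (UU H)) (q.1, W q, q.2.2) (0, fderiv ℝ W q (0, w, 0), 0)
        (0, Pi.single i 1, 0) = w i := by
  have hL : Sm (LL H W) := sm_of (LL_cd h hW)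
  have hWd : HasFDerivAt W (fderiv ℝ W q) q :=
    (hW.differentiable (by simp) q).hasFDerivAt
  have hWi : ∀ i, HasFDerivAt (fun q : X m × X m × ℝ => W q i)
      ((ContinuousLinearMap.proj i).comp (fderiv ℝ W q)) q := fun i =>
    (ContinuousLinearMap.proj (R := ℝ) (φ := fun _ : Fin (m + 1) => ℝ) i).hasFDerivAt.comp q hWd
  have h2 : HasFDerivAt (fun q : X m × X m × ℝ => (q.1, W q, q.2.2))
      ((ContinuousLinearMap.fst ℝ (X m) (X m × ℝ)).prod ((fderiv ℝ W q).prod
        ((ContinuousLinearMap.snd ℝ (X m) ℝ).comp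
          (ContinuousLinearMap.snd ℝ (X m) (X m × ℝ))))) q :=
    hasFDerivAt_fst.prodMk (hWd.prodMk (hasFDerivAt_snd.comp q hasFDerivAt_snd))
  -- differentiate the identity `∂_p H (x, W, t) = v`
  have key : ∀ i, fderiv ℝ (fderiv ℝ (UU H)) (q.1, W q, q.2.2)
      (0, fderiv ℝ W q (0, w, 0), 0) (0, Pi.single i 1, 0) = w i := by
    intro i
    have h3 := (fd_apply (sm_of h) (0, Pi.single i 1, 0) (q.1, W q, q.2.2)).comp q h2
    have h4 : HasFDerivAt (fun q : X m × X m × ℝ => q.2.1 i)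
        (((ContinuousLinearMap.proj (R := ℝ) (φ := fun _ : Fin (m + 1) => ℝ) i).comp
          (ContinuousLinearMap.fst ℝ (X m) ℝ)).comp
          (ContinuousLinearMap.snd ℝ (X m) (X m × ℝ))) q :=
      (((ContinuousLinearMap.proj (R := ℝ) (φ := fun _ : Fin (m + 1) => ℝ) i).comp
        (ContinuousLinearMap.fst ℝ (X m) ℝ)).comp
        (ContinuousLinearMap.snd ℝ (X m) (X m × ℝ))).hasFDerivAt
    have h5 : ((fun q => fderiv ℝ (UU H) q (0, Pi.single i 1, 0)) ∘
        fun q : X m × X m × ℝ => (q.1, W q, q.2.2)) = fun q : X m × X m × ℝ => q.2.1 i := by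
      funext q'
      have := hv q'.1 q'.2.1 q'.2.2 i
      rw [Lv_eq (sm_of h) i] at this
      exact this
    rw [h5] at h3
    have h6 := congrArg (fun φ : (X m × X m × ℝ) →L[ℝ] ℝ => φ (0, w, 0)) (h3.unique h4)
    exact h6
  refine ⟨?_, key⟩
  -- the fibre derivative of `L` is `W`
  have h7 : HasFDerivAt (fun q => fderiv ℝ (UU (LL H W)) q (0, w, 0))
      ((ContinuousLinearMap.apply ℝ ℝ ((0, w, 0) : X m × X m × ℝ)).comp
        (fderiv ℝ (fderiv ℝ (UU (LL H W))) q)) q := fd_apply hL _ q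
  have h8 : (fun q => fderiv ℝ (UU (LL H W)) q (0, w, 0))
      = fun q : X m × X m × ℝ => ∑ i, w i * W q i := by
    funext q'
    rw [LL_fd h hW hv]
    simp only
    have : ((0 : X m), (0 : X m), (0 : ℝ)) = 0 := rfl
    rw [this, map_zero, sub_zero]
  rw [h8] at h7
  have h9 := HasFDerivAt.fun_sum (u := Finset.univ) fun i _ => (hWi i).const_mul (w i)
  have h10 := congrArg (fun φ : (X m × X m × ℝ) →L[ℝ] ℝ => φ (0, w, 0)) (h7.unique h9)
  have h11 : HS (U (LL H W)) q w = ∑ i, w i * fderiv ℝ W q (0, w, 0) i := by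
    have h12 : HS (U (LL H W)) q w = ((ContinuousLinearMap.apply ℝ ℝ
      ((0, w, 0) : X m × X m × ℝ)).comp (fderiv ℝ (fderiv ℝ (UU (LL H W))) q)) (0, w, 0) := rfl
    rw [h12]
    refine h10.trans ?_
    simp only [sum_apply, smul_apply, ContinuousLinearMap.comp_apply,
      ContinuousLinearMap.proj_apply, smul_eq_mul]
  rw [h11]
  unfold HS
  have h13 : (fderiv ℝ (fderiv ℝ (U H)) (q.1, W q, q.2.2))
      (0, fderiv ℝ W q (0, w, 0), 0) (0, fderiv ℝ W q (0, w, 0), 0)
      = ∑ i, fderiv ℝ W q (0, w, 0) i *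
        (fderiv ℝ (fderiv ℝ (UU H)) (q.1, W q, q.2.2)) (0, fderiv ℝ W q (0, w, 0), 0)
          (0, Pi.single i 1, 0) := fibre_sum _ _
  rw [h13]
  refine Finset.sum_congr rfl fun i _ => ?_
  rw [key i, mul_comm]

lemma exists_norm_eq (v : X m) : ∃ i, |v i| = ‖v‖ := by
  obtain ⟨i, -, hi⟩ := Finset.exists_max_image (Finset.univ : Finset (Fin (m + 1)))
    (fun i => |v i|) Finset.univ_nonempty
  refine ⟨i, le_antisymm (norm_le_pi_norm v i) ?_⟩
  rw [pi_norm_le_iff_of_nonneg (abs_nonneg _)]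
  intro j
  exact hi j (Finset.mem_univ _)

lemma per_Lv (hP : PerL H) (i : Fin (m + 1)) (x p : X m) (t : ℝ) (k : Fin (m + 1) → ℤ) (l : ℤ) :
    Lv H i (fun i => x i + k i) p (t + l) = Lv H i x p t := by
  unfold Lv
  have : (fun s => H (fun i => x i + k i) (Function.update p i s) (t + l))
      = fun s => H x (Function.update p i s) t := by
    funext s
    exact hP x (Function.update p i s) t k l
  rw [this]

end

theorem t_LEG : S_LEG := by
  intro m H h hpos hs hbd hper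
  have hp : Pos H := pos_of h hpos
  have hs' : Pool.Agent.TH217.TL.Sup H := hs
  obtain ⟨W, hW, hinv, hv⟩ := leg_inf h hp hs'
  have hL : Sm (LL H W) := sm_of (LL_cd h hW)
  have hz : ∀ z : (X m × X m × ℝ) →L[ℝ] ℝ, z ((0 : X m), (0 : X m), (0 : ℝ)) = 0 :=
    fun z => z.map_zero
  refine ⟨LL H W, fun x v t => W (x, v, t), LL_cd h hW, hW, ?_, ?_, hv, hinv, ?_, ?_, ?_⟩
  · intro x v t i
    rw [Lv_eq hL i, LL_fd h hW hv]
    simp only
    rw [hz, sub_zero]
    simp [Pi.single_apply]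
  · intro x v t i
    rw [Lx_eq hL i, LL_fd h hW hv, Lx_eq (sm_of h) i]
    simp
  · intro q w hw
    obtain ⟨h1, h2⟩ := LL_hess h hW hv q w
    rw [h1]
    apply hpos
    intro h0
    apply hw
    funext i
    rw [← h2 i, h0]
    have : fderiv ℝ (fderiv ℝ (UU H)) (q.1, W q, q.2.2) ((0 : X m), (0 : X m), (0 : ℝ)) = 0 :=
      (fderiv ℝ (fderiv ℝ (UU H)) (q.1, W q, q.2.2)).map_zero
    rw [this]
    rfl
  · intro R
    obtain ⟨B, hB⟩ := hbd |R|
    refine ⟨B, fun x v t => ?_⟩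
    obtain ⟨p, hp1, hp2⟩ := exists_min (sm_of h) hs' x v t
    have hpW : W (x, v, t) = p := by
      have := hinv x p t
      rwa [show (fun i => Lv H i x p t) = v from funext hp2] at this
    obtain ⟨i, hi⟩ := exists_norm_eq v
    have h1 := hp1 (Pi.single i (|R| * SignType.sign (v i)))
    have h2 : ∑ j, v j * (Pi.single i (|R| * (SignType.sign (v i) : ℝ)) : X m) j
        = |R| * ‖v‖ := by
      rw [Finset.sum_eq_single i]
      · rw [Pi.single_eq_same, ← hi]
        have : v i * (|R| * (SignType.sign (v i) : ℝ))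
            = |R| * ((SignType.sign (v i) : ℝ) * v i) := by ring
        rw [this, sign_mul_self]
      · intro j _ hj
        rw [Pi.single_eq_of_ne hj, mul_zero]
      · intro hj
        exact absurd (Finset.mem_univ i) hj
    have h3 : ‖(Pi.single i (|R| * (SignType.sign (v i) : ℝ)) : X m)‖ ≤ |R| := by
      rw [pi_norm_le_iff_of_nonneg (abs_nonneg R)]
      intro j
      by_cases hj : j = i
      · subst hj
        rw [Pi.single_eq_same, norm_mul, Real.norm_eq_abs, abs_abs]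
        have : ‖(SignType.sign (v j) : ℝ)‖ ≤ 1 := by
          rcases lt_trichotomy (v j) 0 with h | h | h
          · rw [sign_neg h]; simp
          · rw [h]; simp
          · rw [sign_pos h]; simp
        nlinarith [abs_nonneg R]
      · rw [Pi.single_eq_of_ne hj, norm_zero]
        exact abs_nonneg R
    have h4 := hB x _ t h3
    have h5 : LL H W x v t = ∑ i, v i * p i - H x p t := by
      unfold LL
      rw [hpW]
    rw [h5]
    rw [h2] at h1
    have h6 : R * ‖v‖ ≤ |R| * ‖v‖ := mul_le_mul_of_nonneg_right (le_abs_self R) (norm_nonneg _)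
    linarith
  · intro x v t k l
    have h1 : W (fun i => x i + k i, v, t + l) = W (x, v, t) := by
      have h2 := hinv (fun i => x i + k i) (W (x, v, t)) (t + l)
      have h3 : (fun i => Lv H i (fun i => x i + k i) (W (x, v, t)) (t + l)) = v := by
        funext i
        rw [per_Lv hper, hv]
      rwa [h3] at h2
    unfold LL
    rw [h1, hper]

end Pool.Agent.Run7.h88.TA
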